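import Pool.Agent.P8H12.JN.Stm

/-!
# Project JN, package EPF: the local factor
-/

set_option autoImplicit false

noncomputable section

namespace Pool.Agent.P8H38.JN

open Pool.Agent.P8H12.JN Filter Topology Finset

theorem uu_eq (p : ℝ) (hp : p ≠ 0) (j : ℕ) :
    uu p j = (1 - 1 / p) ^ j + (p - 1) * (-(1 / p)) ^ j := by
  unfold uu
  have h1 : (1 - 1 / p) = (p - 1) / p := by field_simp
  have h2 : (-(1 / p)) = (-1) / p := by ring
  rw [h1, h2, div_pow, div_pow]
  field_simp

/-- the factor of `dl` which does not depend on `e` -/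
def gg (n : ℕ) (p : ℝ) (f : ℕ) : ℝ :=
  (n.choose (f + 1) : ℝ) * ((1 - 1 / p) / p) ^ (f + 1) * uu p (n - (f + 1))

theorem dl_eq (n : ℕ) (hn : 3 ≤ n) (p : ℝ) (hp : p ≠ 0) (e f : ℕ) :
    dl n p (e, f) = (if e = 0 ∧ f = 0 then uu p n else 0) +
      (if f + 3 ≤ n then gg n p f * (((e + f).choose f : ℝ) / p ^ e) else 0) := by
  unfold dl gg
  by_cases h : e = 0 ∧ f = 0
  · obtain ⟨rfl, rfl⟩ := h
    simp only [if_pos, and_self, zero_add, Nat.choose_one_right, pow_one, pow_zero, Nat.choose_self,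
      Nat.cast_one, div_one, mul_one, if_pos hn]
    ring
  · have h' : ¬ ((e, f) : ℕ × ℕ) = (0, 0) := fun hh => h (by simpa using hh)
    rw [if_neg h', if_neg h, zero_add]
    by_cases h2 : f + 3 ≤ n
    · rw [if_pos h2, if_pos h2]
      have h3 : n - f - 1 = n - (f + 1) := by omega
      simp only [h3]
      rw [div_pow, show e + f + 1 = e + (f + 1) by ring, pow_add p e (f + 1)]
      field_simp
    · rw [if_neg h2, if_neg h2]

theorem epf : S_EPF := by
  intro n hn p hp
  have hp2 : (2 : ℝ) ≤ (p : ℝ) := by exact_mod_cast hp.two_le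
  have hp0 : (0 : ℝ) < (p : ℝ) := by linarith
  have hpn : (p : ℝ) ≠ 0 := hp0.ne'
  have hn0 : (0 : ℝ) < (n : ℝ) := by exact_mod_cast (by omega : 0 < n)
  obtain ⟨r, hr⟩ : ∃ r : ℝ, r = (p : ℝ) ^ (-(1 / (n : ℝ))) := ⟨_, rfl⟩
  have hr0 : 0 < r := hr ▸ Real.rpow_pos_of_pos hp0 _
  have hr1 : r < 1 := hr ▸ Real.rpow_lt_one_of_one_lt_of_neg (by linarith) (by
    have : 0 < 1 / (n : ℝ) := by positivity
    linarith)
  have hpow : ∀ e : ℕ, (p : ℝ) ^ (gam n * e) / (p : ℝ) ^ e = r ^ e := by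
    intro e
    rw [Real.rpow_mul hp0.le, Real.rpow_natCast, ← div_pow]
    congr 1
    rw [hr, div_eq_iff hpn, ← Real.rpow_add_one hpn]
    congr 1
    unfold gam
    field_simp
    ring
  have hterm : ∀ e : ℕ, (p : ℝ) ^ (gam n * e) * ∑ f ∈ range n, dl n p (e, f) =
      (if e = 0 then uu p n else 0) + ∑ f ∈ range n,
        (if f + 3 ≤ n then gg n p f * (((e + f).choose f : ℝ) * r ^ e) else 0) := by
    intro e
    rw [Finset.sum_congr rfl (fun f _ => dl_eq n hn p hpn e f), Finset.sum_add_distrib, mul_add]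
    congr 1
    · by_cases he : e = 0
      · subst he
        simp only [true_and, if_true, Nat.cast_zero, mul_zero, Real.rpow_zero, one_mul]
        rw [Finset.sum_ite_eq' (range n) 0 (fun _ => uu (p : ℝ) n), if_pos (Finset.mem_range.2 (by omega))]
      · simp [he]
    · rw [Finset.mul_sum]
      refine Finset.sum_congr rfl fun f _ => ?_
      by_cases h2 : f + 3 ≤ n
      · rw [if_pos h2, if_pos h2, ← hpow e]
        ring
      · rw [if_neg h2, if_neg h2, mul_zero]
  have hsum : HasSum (fun e : ℕ => (if e = 0 then uu p n else 0) + ∑ f ∈ range n,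
        (if f + 3 ≤ n then gg n p f * (((e + f).choose f : ℝ) * r ^ e) else 0))
      (uu p n + ∑ f ∈ range n,
        (if f + 3 ≤ n then gg n p f * (1 / (1 - r) ^ (f + 1)) else 0)) := by
    refine HasSum.add ?_ ?_
    · have := hasSum_single (f := fun e : ℕ => (if e = 0 then uu (p : ℝ) n else 0)) 0
        (fun b hb => if_neg hb)
      simpa using this
    · refine hasSum_sum fun f _ => ?_
      by_cases h2 : f + 3 ≤ n
      · have h := hasSum_choose_mul_geometric_of_norm_lt_one (𝕜 := ℝ) f (r := r)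
          (by rw [Real.norm_eq_abs, abs_of_pos hr0]; exact hr1)
        have h' := h.mul_left (gg n p f)
        rw [if_pos h2]
        simp only [if_pos h2]
        exact h'
      · simp only [if_neg h2]
        exact hasSum_zero
  rw [show (fun e : ℕ => (p : ℝ) ^ (gam n * e) * ∑ f ∈ range n, dl n p (e, f)) = _ from
    funext hterm]
  convert hsum using 1
  -- the algebra
  obtain ⟨m, rfl⟩ : ∃ m, n = m + 3 := ⟨n - 3, by omega⟩
  obtain ⟨y, hy⟩ : ∃ y : ℝ, y = yy (m + 3) p := ⟨_, rfl⟩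
  have hyr : y = (1 - 1 / (p : ℝ)) / p / (1 - r) := by rw [hy, hr]; rfl
  set T : ℕ → ℝ := fun f => ((m + 3).choose (f + 1) : ℝ) * y ^ (f + 1) * uu p (m + 3 - (f + 1))
    with hT
  have h1r : (1 - r) ≠ 0 := by linarith
  have hgT : ∀ f, gg (m + 3) p f * (1 / (1 - r) ^ (f + 1)) = T f := by
    intro f
    rw [hT]
    simp only
    rw [hyr, gg, div_pow _ (1 - r)]
    ring
  have hite : ∑ f ∈ range (m + 3), (if f + 3 ≤ m + 3 then
      gg (m + 3) p f * (1 / (1 - r) ^ (f + 1)) else 0) = ∑ f ∈ range (m + 1), T f := by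
    rw [Finset.sum_range_succ, Finset.sum_range_succ, if_neg (by omega), if_neg (by omega), add_zero,
      add_zero]
    refine Finset.sum_congr rfl fun f hf => ?_
    rw [if_pos (by have := Finset.mem_range.1 hf; omega), hgT]
  rw [hite]
  have hu0 : uu (p : ℝ) 0 = p := by
    unfold uu
    simp
  have hu1 : uu (p : ℝ) 1 = 0 := by
    unfold uu
    simp
  have hT1 : T (m + 1) = 0 := by
    rw [hT]
    simp only
    rw [show m + 3 - (m + 1 + 1) = 1 by omega, hu1, mul_zero]
  have hT2 : T (m + 2) = y ^ (m + 3) * p := by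
    rw [hT]
    simp only
    rw [show m + 3 - (m + 2 + 1) = 0 by omega, hu0, show m + 2 + 1 = m + 3 by ring,
      Nat.choose_self, Nat.cast_one, one_mul]
  have hfull : ∑ k ∈ range (m + 3 + 1), ((m + 3).choose k : ℝ) * y ^ k * uu p (m + 3 - k) =
      (1 - 1 / (p : ℝ) + y) ^ (m + 3) + ((p : ℝ) - 1) * (y - 1 / p) ^ (m + 3) := by
    rw [show (1 - 1 / (p : ℝ) + y) = y + (1 - 1 / (p : ℝ)) by ring,
      show (y - 1 / (p : ℝ)) = y + (-(1 / (p : ℝ))) by ring, add_pow, add_pow, Finset.mul_sum,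
      ← Finset.sum_add_distrib]
    refine Finset.sum_congr rfl fun k _ => ?_
    rw [uu_eq _ hpn]
    ring
  have hfull2 : ∑ k ∈ range (m + 3 + 1), ((m + 3).choose k : ℝ) * y ^ k * uu p (m + 3 - k) =
      (∑ f ∈ range (m + 1), T f) + y ^ (m + 3) * p + uu p (m + 3) := by
    rw [Finset.sum_range_succ']
    have : ∑ f ∈ range (m + 3), ((m + 3).choose (f + 1) : ℝ) * y ^ (f + 1) *
        uu p (m + 3 - (f + 1)) = ∑ f ∈ range (m + 3), T f := rfl
    rw [this, Finset.sum_range_succ T (m + 2), Finset.sum_range_succ T (m + 1), hT1, hT2]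
    simp
  unfold EP
  rw [← hy]
  linarith [hfull, hfull2]

end Pool.Agent.P8H38.JN
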