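import Pool.Agent.P8H38.JN.Cnt

/-!
# Project JN, packages TL and SHB: the tail of the sieve, few points have a large shared part
-/

set_option autoImplicit false

noncomputable section

namespace Pool.Agent.P8H38.JN

open Pool.Agent.P8H12.JN Filter Topology Finset

theorem sum_inv_le (P N : ℕ) (hP : 1 ≤ P) : ∑ g ∈ Ioc P N, ((g : ℝ) ^ 2)⁻¹ ≤ (P : ℝ)⁻¹ := by
  rcases le_total P N with h | h
  · refine (sum_Ioc_inv_sq_le_sub (α := ℝ) (by omega) h).trans ?_
    have : (0 : ℝ) ≤ (N : ℝ)⁻¹ := by positivity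
    linarith
  · rw [Finset.Ioc_eq_empty_of_le h, Finset.sum_empty]
    positivity

/-- the points of a box with two coordinates divisible by `g`, or one by `g ^ 2`, for some `g` with
`P < g ≤ N` -/
def AA (d : ℕ) (B : ℝ) (P N : ℕ) : Set (Fin d → ℤ) :=
  ⋃ g ∈ Ioc P N, ((⋃ i ∈ (univ : Finset (Fin (d + 1))), A1 d B g i) ∪
    ⋃ x ∈ (univ : Finset (Fin (d + 1) × Fin (d + 1))), A2 d B g x.1 x.2)

theorem card_AA {d : ℕ} (hd : 2 ≤ d) (B : ℝ) (hB : 0 ≤ B) (P N : ℕ) (hP : 1 ≤ P) :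
    (AA d B P N).Finite ∧
      ((AA d B P N).ncard : ℝ) ≤ ((d + 1) + (d + 1) ^ 2) * (2 * d * B) ^ d / P := by
  constructor
  · refine Set.Finite.biUnion (Finset.finite_toSet _) fun g hg => ?_
    have hg0 : 0 < g := by
      have := (Finset.mem_Ioc.1 hg).1
      omega
    refine Set.Finite.union ?_ ?_
    · exact Set.Finite.biUnion (Finset.finite_toSet _) fun i _ => (card_A1 hd B hB g hg0 i).1
    · exact Set.Finite.biUnion (Finset.finite_toSet _) fun x _ => (card_A2 hd B hB g hg0 _ _).1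
  · have h1 : ((AA d B P N).ncard : ℝ) ≤ ∑ g ∈ Ioc P N,
        (((d + 1) + (d + 1) ^ 2) * (2 * d * B) ^ d) * ((g : ℝ) ^ 2)⁻¹ := by
      refine (Nat.cast_le.2 (Finset.set_ncard_biUnion_le _ _)).trans ?_
      rw [Nat.cast_sum]
      refine Finset.sum_le_sum fun g hg => ?_
      have hg0 : 0 < g := by
        have := (Finset.mem_Ioc.1 hg).1
        omega
      refine (Nat.cast_le.2 (Set.ncard_union_le _ _)).trans ?_
      rw [Nat.cast_add]
      have h2 : ((⋃ i ∈ (univ : Finset (Fin (d + 1))), A1 d B g i).ncard : ℝ) ≤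
          (d + 1) * ((2 * d * B) ^ d / (g : ℝ) ^ 2) := by
        refine (Nat.cast_le.2 (Finset.set_ncard_biUnion_le _ _)).trans ?_
        rw [Nat.cast_sum]
        refine (Finset.sum_le_sum fun i _ => (card_A1 hd B hB g hg0 i).2).trans ?_
        rw [Finset.sum_const, Finset.card_univ, Fintype.card_fin, nsmul_eq_mul]
        push_cast
        exact le_refl _
      have h3 : ((⋃ x ∈ (univ : Finset (Fin (d + 1) × Fin (d + 1))), A2 d B g x.1 x.2).ncard : ℝ) ≤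
          (d + 1) ^ 2 * ((2 * d * B) ^ d / (g : ℝ) ^ 2) := by
        refine (Nat.cast_le.2 (Finset.set_ncard_biUnion_le _ _)).trans ?_
        rw [Nat.cast_sum]
        refine (Finset.sum_le_sum fun x _ => (card_A2 hd B hB g hg0 x.1 x.2).2).trans ?_
        rw [Finset.sum_const, Finset.card_univ, Fintype.card_prod, Fintype.card_fin, nsmul_eq_mul]
        push_cast
        exact le_of_eq (by ring)
      refine (add_le_add h2 h3).trans (le_of_eq ?_)
      ring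
    refine h1.trans ?_
    rw [← Finset.mul_sum]
    refine (mul_le_mul_of_nonneg_left (sum_inv_le P N hP) (by positivity)).trans (le_of_eq ?_)
    ring

theorem typ_or {n : ℕ} (hn : 2 ≤ n) (p : ℕ) (z : Fin n → ℤ)
    (h : ¬ Typ p (0, 0) z) :
    (∃ i, (p : ℤ) ^ 2 ∣ z i) ∨ ∃ i j, i ≠ j ∧ (p : ℤ) ∣ z i ∧ (p : ℤ) ∣ z j := by
  classical
  by_contra hcon
  push Not at hcon
  obtain ⟨h1, h2⟩ := hcon
  apply h
  refine ⟨fun i => if (p : ℤ) ∣ z i then 1 else 0, fun i => ?_, ?_, ?_, ?_⟩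
  · by_cases hi : (p : ℤ) ∣ z i
    · simp only [if_pos hi, pow_one]
      exact ⟨hi, h1 i⟩
    · simp only [if_neg hi, pow_zero, zero_add, pow_one]
      exact ⟨one_dvd _, hi⟩
  · by_contra hc
    push Not at hc
    have h3 : ∀ i, (p : ℤ) ∣ z i := fun i => by
      have := hc i
      by_contra h4
      exact this (if_neg h4)
    exact h2 ⟨0, by omega⟩ ⟨1, by omega⟩ (by simp) (h3 _) (h3 _)
  · refine Finset.sum_eq_zero fun i _ => ?_
    change (if (p : ℤ) ∣ z i then 1 else 0) - 1 = 0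
    split_ifs <;> simp
  · have : (univ.filter fun i => (if (p : ℤ) ∣ z i then 1 else 0 : ℕ) ≠ 0).card ≤ 1 := by
      rw [Finset.card_le_one]
      intro i hi j hj
      rw [Finset.mem_filter] at hi hj
      by_contra hij
      refine h2 i j hij ?_ ?_
      · by_contra h4
        exact hi.2 (if_neg h4)
      · by_contra h4
        exact hj.2 (if_neg h4)
    simp only
    omega

theorem le_of_dvd_co {d : ℕ} (hd : 1 ≤ d) (y : Fin d → ℤ) (B : ℝ) (h : ∀ i, |((y i : ℤ) : ℝ)| ≤ B)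
    (i : Fin (d + 1)) (h0 : co y i ≠ 0) (g : ℕ) (hg : (g : ℤ) ∣ co y i) : g ≤ ⌊d * B⌋₊ := by
  have hB : 0 ≤ B := (abs_nonneg _).trans (h ⟨0, hd⟩)
  have h1 := co_le hd y B h i
  have h2 : g ≤ (co y i).natAbs := Nat.le_of_dvd (Int.natAbs_pos.2 h0) (Int.natCast_dvd.1 hg)
  refine h2.trans (Nat.le_floor ?_)
  rw [Nat.cast_natAbs, Int.cast_abs]
  exact h1

theorem tl : S_TL := by
  intro d hd R hR
  have hd' : (2 : ℝ) ≤ (d : ℝ) := by exact_mod_cast hd
  refine ⟨((d + 1) + (d + 1) ^ 2) * (2 * d * R) ^ d, by positivity, fun P hP l hl => ?_⟩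
  have hB : 0 ≤ R * l := by positivity
  have hsub : {y : Fin d → ℤ | (∀ i, co y i ≠ 0) ∧ (∀ i, |((y i : ℤ) : ℝ)| ≤ R * l) ∧
      ∃ p : ℕ, p.Prime ∧ P < p ∧ ¬ Typ p (0, 0) (co y)} ⊆ AA d (R * l) P ⌊d * (R * l)⌋₊ := by
    rintro y ⟨h0, hb, p, hp, hPp, ht⟩
    rcases typ_or (by omega) p _ ht with ⟨i, hi⟩ | ⟨i, j, hij, hi, hj⟩
    · have h1 : p ≤ ⌊d * (R * l)⌋₊ := le_of_dvd_co (by omega) y _ hb i (h0 i) p
        ((dvd_pow_self _ two_ne_zero).trans hi)
      refine Set.mem_biUnion (x := p) (Finset.mem_coe.2 (Finset.mem_Ioc.2 ⟨hPp, h1⟩)) (Or.inl ?_)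
      exact Set.mem_biUnion (x := i) (Finset.mem_coe.2 (Finset.mem_univ _)) ⟨h0, hb, hi⟩
    · have h1 : p ≤ ⌊d * (R * l)⌋₊ := le_of_dvd_co (by omega) y _ hb i (h0 i) p hi
      refine Set.mem_biUnion (x := p) (Finset.mem_coe.2 (Finset.mem_Ioc.2 ⟨hPp, h1⟩)) (Or.inr ?_)
      exact Set.mem_biUnion (x := (i, j)) (Finset.mem_coe.2 (Finset.mem_univ _))
        ⟨h0, hb, hij, hi, hj⟩
  obtain ⟨hfin, hcard⟩ := card_AA hd (R * l) hB P ⌊d * (R * l)⌋₊ hP
  refine ⟨hfin.subset hsub, ?_⟩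
  refine (Nat.cast_le.2 (Set.ncard_le_ncard hsub hfin)).trans (hcard.trans (le_of_eq ?_))
  rw [show (2 * (d : ℝ) * (R * l)) = (2 * d * R) * l by ring, mul_pow]
  ring

/-- the shared part -/
theorem sh_le {n : ℕ} (z : Fin n → ℤ) (hz : ∀ i, z i ≠ 0) (G : ℕ)
    (h : ∀ p : ℕ, p.Prime → G < p → ∀ i j, i ≠ j → (p : ℤ) ∣ z i → ¬ (p : ℤ) ∣ z j) :
    sh z ≤ (∏ p ∈ Finset.Icc 1 G, p) ^ n := by
  classical
  have hPP : PP z ≠ 0 := Finset.prod_ne_zero_iff.2 fun i _ => Int.natAbs_ne_zero.2 (hz i)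
  set Q := (PP z).primeFactors with hQ
  have hdvd : ∀ i, (z i).natAbs ∣ PP z := fun i => Finset.dvd_prod_of_mem _ (Finset.mem_univ i)
  -- RR as a product over the primes
  have h1 : RR z = ∏ p ∈ Q, p ^ (univ.filter fun i => (p : ℤ) ∣ z i).card := by
    unfold RR rad
    have h2 : ∀ i, (∏ p ∈ ((z i).natAbs).primeFactors, p) =
        ∏ p ∈ Q, if (p : ℤ) ∣ z i then p else 1 := by
      intro i
      rw [← Finset.prod_filter]
      refine Finset.prod_congr ?_ fun _ _ => rfl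
      ext p
      rw [Finset.mem_filter, hQ, Nat.mem_primeFactors, Nat.mem_primeFactors, Int.natCast_dvd]
      constructor
      · rintro ⟨a, b, -⟩
        exact ⟨⟨a, b.trans (hdvd i), hPP⟩, b⟩
      · rintro ⟨⟨a, -, -⟩, b⟩
        exact ⟨a, b, Int.natAbs_ne_zero.2 (hz i)⟩
    rw [Finset.prod_congr rfl fun i _ => h2 i, Finset.prod_comm]
    refine Finset.prod_congr rfl fun p _ => ?_
    rw [← Finset.prod_filter, Finset.prod_const]
  have hpos : ∀ p ∈ Q, 1 ≤ (univ.filter fun i => (p : ℤ) ∣ z i).card := by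
    intro p hp
    rw [hQ, Nat.mem_primeFactors] at hp
    obtain ⟨i, -, hi⟩ := (Prime.dvd_finsetProd_iff hp.1.prime _).1 hp.2.1
    exact Finset.card_pos.2 ⟨i, Finset.mem_filter.2 ⟨Finset.mem_univ _, Int.natCast_dvd.2 hi⟩⟩
  have h2 : RR z = rad (PP z) * ∏ p ∈ Q, p ^ ((univ.filter fun i => (p : ℤ) ∣ z i).card - 1) := by
    rw [h1]
    unfold rad
    rw [← hQ, ← Finset.prod_mul_distrib]
    refine Finset.prod_congr rfl fun p hp => ?_
    rw [← pow_succ', Nat.sub_add_cancel (hpos p hp)]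
  have hrad : 0 < rad (PP z) := Finset.prod_pos fun p hp => (Nat.prime_of_mem_primeFactors hp).pos
  have h3 : sh z = ∏ p ∈ Q, p ^ ((univ.filter fun i => (p : ℤ) ∣ z i).card - 1) := by
    unfold sh
    rw [h2, Nat.mul_div_cancel_left _ hrad]
  rw [h3]
  calc ∏ p ∈ Q, p ^ ((univ.filter fun i => (p : ℤ) ∣ z i).card - 1)
      ≤ ∏ p ∈ Q, (if p ≤ G then p ^ n else 1) := by
        refine Finset.prod_le_prod' fun p hp => ?_
        have hp' := Nat.prime_of_mem_primeFactors hp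
        by_cases hG : p ≤ G
        · rw [if_pos hG]
          refine Nat.pow_le_pow_right hp'.pos ((Nat.sub_le _ _).trans ?_)
          refine (Finset.card_le_univ _).trans ?_
          rw [Fintype.card_fin]
        · rw [if_neg hG]
          have : (univ.filter fun i => (p : ℤ) ∣ z i).card ≤ 1 := by
            rw [Finset.card_le_one]
            intro i hi j hj
            by_contra hij
            exact h p hp' (by omega) i j hij (Finset.mem_filter.1 hi).2 (Finset.mem_filter.1 hj).2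
          rw [Nat.sub_eq_zero_of_le this, pow_zero]
    _ = ∏ p ∈ Q.filter (· ≤ G), p ^ n := by rw [Finset.prod_filter]
    _ ≤ ∏ p ∈ Finset.Icc 1 G, p ^ n := by
        refine Finset.prod_le_prod_of_subset_of_one_le' ?_ ?_
        · intro p hp
          rw [Finset.mem_filter] at hp
          exact Finset.mem_Icc.2 ⟨(Nat.prime_of_mem_primeFactors hp.1).pos, hp.2⟩
        · intro p hp _
          exact Nat.one_le_pow _ _ (Finset.mem_Icc.1 hp).1
    _ = _ := by rw [Finset.prod_pow]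

theorem shb : S_SHB := by
  intro d hd R hR ε hε
  have hd' : (2 : ℝ) ≤ (d : ℝ) := by exact_mod_cast hd
  set C : ℝ := ((d + 1) + (d + 1) ^ 2) * (2 * d * R) ^ d with hC
  have hC0 : 0 < C := by positivity
  obtain ⟨G, hG⟩ := exists_nat_gt (C / ε)
  have hG0 : (0 : ℝ) < (G : ℝ) := (by positivity : 0 < C / ε).trans hG
  have hG1 : 1 ≤ G := by exact_mod_cast hG0
  refine ⟨(∏ p ∈ Finset.Icc 1 G, p) ^ (d + 1), fun l hl => ?_⟩
  have hB : 0 ≤ R * l := by positivity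
  have hsub : {y : Fin d → ℤ | (∀ i, co y i ≠ 0) ∧ (∀ i, |((y i : ℤ) : ℝ)| ≤ R * l) ∧
      (∏ p ∈ Finset.Icc 1 G, p) ^ (d + 1) < sh (co y)} ⊆ AA d (R * l) G ⌊d * (R * l)⌋₊ := by
    rintro y ⟨h0, hb, hT⟩
    have h1 : ∃ p : ℕ, p.Prime ∧ G < p ∧ ∃ i j, i ≠ j ∧ (p : ℤ) ∣ co y i ∧ (p : ℤ) ∣ co y j := by
      by_contra hcon
      push Not at hcon
      exact absurd (sh_le (co y) h0 G hcon) (not_le.2 hT)
    obtain ⟨p, hp, hGp, i, j, hij, hi, hj⟩ := h1
    have h1 : p ≤ ⌊d * (R * l)⌋₊ := le_of_dvd_co (by omega) y _ hb i (h0 i) p hi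
    refine Set.mem_biUnion (x := p) (Finset.mem_coe.2 (Finset.mem_Ioc.2 ⟨hGp, h1⟩)) (Or.inr ?_)
    exact Set.mem_biUnion (x := (i, j)) (Finset.mem_coe.2 (Finset.mem_univ _))
      ⟨h0, hb, hij, hi, hj⟩
  obtain ⟨hfin, hcard⟩ := card_AA hd (R * l) hB G ⌊d * (R * l)⌋₊ hG1
  refine (Nat.cast_le.2 (Set.ncard_le_ncard hsub hfin)).trans (hcard.trans ?_)
  rw [show (2 * (d : ℝ) * (R * l)) = (2 * d * R) * l by ring, mul_pow, ← mul_assoc, ← hC,
    div_le_iff₀ hG0]
  have h5 : C ≤ ε * G := by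
    rw [div_lt_iff₀ hε] at hG
    linarith
  have h6 : (0 : ℝ) ≤ l ^ d := by positivity
  nlinarith [mul_le_mul_of_nonneg_right h5 h6]

end Pool.Agent.P8H38.JN
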