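import Pool.Agent.P8H12.JN.Stm

/-!
# Project JN: counting points with prescribed divisors of the coordinates
-/

set_option autoImplicit false

noncomputable section

namespace Pool.Agent.P8H38.JN

open Pool.Agent.P8H12.JN Filter Topology Finset

theorem card_mult (B : ℝ) (h : ℕ) (hh : 0 < h) :
    {m : ℤ | m ≠ 0 ∧ |(m : ℝ)| ≤ B ∧ (h : ℤ) ∣ m}.Finite ∧
    (({m : ℤ | m ≠ 0 ∧ |(m : ℝ)| ≤ B ∧ (h : ℤ) ∣ m}.ncard : ℕ) : ℝ) ≤ 2 * |B| / h := by
  have hh' : (0 : ℝ) < (h : ℝ) := by exact_mod_cast hh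
  set T : ℕ := ⌊|B| / h⌋₊ with hT
  have hsub : {m : ℤ | m ≠ 0 ∧ |(m : ℝ)| ≤ B ∧ (h : ℤ) ∣ m} ⊆
      (((Finset.Icc (-(T : ℤ)) T).erase 0).image fun t : ℤ => (h : ℤ) * t : Finset ℤ) := by
    rintro m ⟨h0, hB, t, rfl⟩
    rw [Finset.coe_image]
    refine ⟨t, ?_, rfl⟩
    rw [Finset.mem_coe, Finset.mem_erase, Finset.mem_Icc]
    have h1 : |(t : ℝ)| ≤ |B| / h := by
      rw [le_div_iff₀ hh']
      have h2 : |(((h : ℤ) * t : ℤ) : ℝ)| = |(t : ℝ)| * h := by
        push_cast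
        rw [abs_mul, abs_of_pos hh', mul_comm]
      rw [← h2]
      exact hB.trans (le_abs_self B)
    have h3 : t.natAbs ≤ T := Nat.le_floor (by
      rw [Nat.cast_natAbs, Int.cast_abs]
      exact h1)
    refine ⟨fun h => h0 (by rw [h, mul_zero]), ?_, ?_⟩ <;> omega
  refine ⟨(Finset.finite_toSet _).subset hsub, ?_⟩
  have h1 := Set.ncard_le_ncard hsub (Finset.finite_toSet _)
  rw [Set.ncard_coe_finset] at h1
  have h2 : ((Finset.Icc (-(T : ℤ)) T).erase 0).card = 2 * T := by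
    rw [Finset.card_erase_of_mem (by rw [Finset.mem_Icc]; omega), Int.card_Icc]
    omega
  have h3 := h1.trans (Finset.card_image_le.trans h2.le)
  have h4 : (T : ℝ) ≤ |B| / h := Nat.floor_le (by positivity)
  calc _ ≤ ((2 * T : ℕ) : ℝ) := by exact_mod_cast h3
    _ = 2 * (T : ℝ) := by push_cast; ring
    _ ≤ 2 * (|B| / h) := by linarith
    _ = _ := by ring

theorem card_box {d : ℕ} (B : ℝ) (h : Fin d → ℕ) (hh : ∀ k, 0 < h k) :
    {v : Fin d → ℤ | ∀ k, v k ≠ 0 ∧ |(v k : ℝ)| ≤ B ∧ (h k : ℤ) ∣ v k}.Finite ∧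
    (({v : Fin d → ℤ | ∀ k, v k ≠ 0 ∧ |(v k : ℝ)| ≤ B ∧ (h k : ℤ) ∣ v k}.ncard : ℕ) : ℝ) ≤
      ∏ k, (2 * |B| / h k) := by
  have he : {v : Fin d → ℤ | ∀ k, v k ≠ 0 ∧ |(v k : ℝ)| ≤ B ∧ (h k : ℤ) ∣ v k} =
      (Fintype.piFinset fun k => (card_mult B (h k) (hh k)).1.toFinset : Finset (Fin d → ℤ)) := by
    ext v
    simp
  rw [he]
  refine ⟨Finset.finite_toSet _, ?_⟩
  rw [Set.ncard_coe_finset, Fintype.card_piFinset, Nat.cast_prod]
  refine Finset.prod_le_prod (fun _ _ => Nat.cast_nonneg _) fun k _ => ?_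
  rw [← Set.ncard_eq_toFinset_card _ (card_mult B (h k) (hh k)).1]
  exact (card_mult B (h k) (hh k)).2

theorem co_castSucc {d : ℕ} (y : Fin d → ℤ) (i : Fin d) : co y (Fin.castSucc i) = y i := by
  unfold co
  rw [Fin.snoc_castSucc]

theorem co_last {d : ℕ} (y : Fin d → ℤ) : co y (Fin.last d) = -∑ i, y i := by
  unfold co
  rw [Fin.snoc_last]

theorem sum_co {d : ℕ} (y : Fin d → ℤ) : ∑ i, co y i = 0 := by
  rw [Fin.sum_univ_castSucc, co_last]
  simp [co_castSucc]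

theorem co_le {d : ℕ} (hd : 1 ≤ d) (y : Fin d → ℤ) (B : ℝ) (h : ∀ i, |((y i : ℤ) : ℝ)| ≤ B)
    (i : Fin (d + 1)) : |((co y i : ℤ) : ℝ)| ≤ d * B := by
  have hd' : (1 : ℝ) ≤ (d : ℝ) := by exact_mod_cast hd
  have hB : 0 ≤ B := (abs_nonneg _).trans (h ⟨0, hd⟩)
  refine Fin.lastCases ?_ (fun j => ?_) i
  · rw [co_last]
    push_cast
    rw [abs_neg]
    refine (Finset.abs_sum_le_sum_abs _ _).trans ((Finset.sum_le_sum fun j _ => h j).trans ?_)
    simp
  · rw [co_castSucc]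
    nlinarith [h j]

theorem card_co {d : ℕ} (hd : 1 ≤ d) (B : ℝ) (hB : 0 ≤ B) (H : Fin (d + 1) → ℕ)
    (hH : ∀ i, 0 < H i) (i₀ : Fin (d + 1)) (h0 : H i₀ = 1) :
    {y : Fin d → ℤ | (∀ i, co y i ≠ 0) ∧ (∀ i, |((y i : ℤ) : ℝ)| ≤ B) ∧
      ∀ i, (H i : ℤ) ∣ co y i}.Finite ∧
    (({y : Fin d → ℤ | (∀ i, co y i ≠ 0) ∧ (∀ i, |((y i : ℤ) : ℝ)| ≤ B) ∧
      ∀ i, (H i : ℤ) ∣ co y i}.ncard : ℕ) : ℝ) ≤ (2 * d * B) ^ d / ((∏ i, H i : ℕ) : ℝ) := by
  obtain ⟨hfin, hcard⟩ := card_box (d := d) (d * B) (fun k => H (i₀.succAbove k))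
    (fun k => hH _)
  have hmaps : ∀ y ∈ {y : Fin d → ℤ | (∀ i, co y i ≠ 0) ∧ (∀ i, |((y i : ℤ) : ℝ)| ≤ B) ∧
      ∀ i, (H i : ℤ) ∣ co y i}, (fun k => co y (i₀.succAbove k)) ∈
      {v : Fin d → ℤ | ∀ k, v k ≠ 0 ∧ |(v k : ℝ)| ≤ d * B ∧ (H (i₀.succAbove k) : ℤ) ∣ v k} :=
    fun y hy k => ⟨hy.1 _, co_le hd y B hy.2.1 _, hy.2.2 _⟩
  have hinj : Set.InjOn (fun (y : Fin d → ℤ) (k : Fin d) => co y (i₀.succAbove k))
      {y : Fin d → ℤ | (∀ i, co y i ≠ 0) ∧ (∀ i, |((y i : ℤ) : ℝ)| ≤ B) ∧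
      ∀ i, (H i : ℤ) ∣ co y i} := by
    intro y _ y' _ he
    have h1 : ∀ k, co y (i₀.succAbove k) = co y' (i₀.succAbove k) := fun k => congrFun he k
    have h2 : co y i₀ = co y' i₀ := by
      have h3 := sum_co y
      have h4 := sum_co y'
      rw [Fin.sum_univ_succAbove _ i₀] at h3 h4
      rw [Finset.sum_congr rfl (fun k _ => h1 k)] at h3
      linarith
    have h5 : ∀ i, co y i = co y' i := fun i => by
      rcases Fin.eq_self_or_eq_succAbove i₀ i with h | ⟨k, h⟩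
      · rw [h, h2]
      · rw [h, h1]
    funext i
    rw [← co_castSucc y i, ← co_castSucc y' i, h5]
  refine ⟨Set.Finite.of_injOn hmaps hinj hfin, ?_⟩
  have h1 := Set.ncard_le_ncard_of_injOn _ hmaps hinj hfin
  refine (Nat.cast_le.2 h1).trans (hcard.trans (le_of_eq ?_))
  rw [Finset.prod_div_distrib, Finset.prod_const, Finset.card_univ, Fintype.card_fin,
    abs_of_nonneg (by positivity), Fin.prod_univ_succAbove _ i₀, h0, one_mul, Nat.cast_prod,
    mul_assoc]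

/-- the set of the points in a box where the coordinates `i ≠ j` are divisible by `g` -/
def A2 (d : ℕ) (B : ℝ) (g : ℕ) (i j : Fin (d + 1)) : Set (Fin d → ℤ) :=
  {y | (∀ i, co y i ≠ 0) ∧ (∀ i, |((y i : ℤ) : ℝ)| ≤ B) ∧ i ≠ j ∧ (g : ℤ) ∣ co y i ∧
    (g : ℤ) ∣ co y j}

/-- the set of the points in a box where the coordinate `i` is divisible by `g ^ 2` -/
def A1 (d : ℕ) (B : ℝ) (g : ℕ) (i : Fin (d + 1)) : Set (Fin d → ℤ) :=
  {y | (∀ i, co y i ≠ 0) ∧ (∀ i, |((y i : ℤ) : ℝ)| ≤ B) ∧ (g : ℤ) ^ 2 ∣ co y i}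

theorem card_A2 {d : ℕ} (hd : 2 ≤ d) (B : ℝ) (hB : 0 ≤ B) (g : ℕ) (hg : 0 < g)
    (i j : Fin (d + 1)) : (A2 d B g i j).Finite ∧
      ((A2 d B g i j).ncard : ℝ) ≤ (2 * d * B) ^ d / (g : ℝ) ^ 2 := by
  by_cases hij : i = j
  · have : A2 d B g i j = ∅ := by
      ext y
      simp [A2, hij]
    rw [this]
    refine ⟨Set.finite_empty, ?_⟩
    rw [Set.ncard_empty]
    push_cast
    positivity
  · obtain ⟨i₀, h0⟩ : ∃ i₀ : Fin (d + 1), i₀ ∉ ({i, j} : Finset (Fin (d + 1))) := by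
      by_contra hcon
      push Not at hcon
      have h1 : (Finset.univ : Finset (Fin (d + 1))) ⊆ {i, j} := fun x _ => hcon x
      have h2 := Finset.card_le_card h1
      rw [Finset.card_univ, Fintype.card_fin] at h2
      have h3 := Finset.card_le_two (a := i) (b := j)
      omega
    rw [Finset.mem_insert, Finset.mem_singleton, not_or] at h0
    set H : Fin (d + 1) → ℕ := fun k => if k ∈ ({i, j} : Finset (Fin (d + 1))) then g else 1
      with hH
    have hp : ∏ k, H k = g ^ 2 := by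
      rw [hH, Finset.prod_ite_mem, Finset.univ_inter, Finset.prod_const, Finset.card_pair hij]
    have h1 := card_co (d := d) (by omega) B hB H (fun k => by
      rw [hH]
      by_cases hk : k ∈ ({i, j} : Finset (Fin (d + 1)))
      · simp only [if_pos hk]; exact hg
      · simp only [if_neg hk]; norm_num) i₀ (by
      rw [hH]
      simp [h0.1, h0.2])
    have h2 : A2 d B g i j = {y : Fin d → ℤ | (∀ i, co y i ≠ 0) ∧
        (∀ i, |((y i : ℤ) : ℝ)| ≤ B) ∧ ∀ i, (H i : ℤ) ∣ co y i} := by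
      ext y
      constructor
      · rintro ⟨a, b, -, c, e⟩
        refine ⟨a, b, fun k => ?_⟩
        rw [hH]
        by_cases hk : k ∈ ({i, j} : Finset (Fin (d + 1)))
        · simp only [if_pos hk]
          rw [Finset.mem_insert, Finset.mem_singleton] at hk
          rcases hk with rfl | rfl
          · exact c
          · exact e
        · simp only [if_neg hk]
          simp
      · rintro ⟨a, b, c⟩
        refine ⟨a, b, hij, ?_, ?_⟩
        · have := c i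
          rw [hH] at this
          simpa using this
        · have := c j
          rw [hH] at this
          simpa using this
    rw [h2]
    rw [hp] at h1
    refine ⟨h1.1, h1.2.trans (le_of_eq ?_)⟩
    push_cast
    rfl

theorem card_A1 {d : ℕ} (hd : 2 ≤ d) (B : ℝ) (hB : 0 ≤ B) (g : ℕ) (hg : 0 < g)
    (i : Fin (d + 1)) : (A1 d B g i).Finite ∧
      ((A1 d B g i).ncard : ℝ) ≤ (2 * d * B) ^ d / (g : ℝ) ^ 2 := by
  obtain ⟨i₀, h0⟩ : ∃ i₀ : Fin (d + 1), i₀ ≠ i := by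
    by_contra hcon
    push Not at hcon
    have h1 : (Finset.univ : Finset (Fin (d + 1))) ⊆ {i} := fun x _ =>
      Finset.mem_singleton.2 (hcon x)
    have h2 := Finset.card_le_card h1
    rw [Finset.card_univ, Fintype.card_fin, Finset.card_singleton] at h2
    omega
  set H : Fin (d + 1) → ℕ := fun k => if k ∈ ({i} : Finset (Fin (d + 1))) then g ^ 2 else 1
    with hH
  have hp : ∏ k, H k = g ^ 2 := by
    rw [hH, Finset.prod_ite_mem, Finset.univ_inter, Finset.prod_const, Finset.card_singleton,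
      pow_one]
  have h1 := card_co (d := d) (by omega) B hB H (fun k => by
    rw [hH]
    by_cases hk : k ∈ ({i} : Finset (Fin (d + 1)))
    · simp only [if_pos hk]; positivity
    · simp only [if_neg hk]; norm_num) i₀ (by
    rw [hH]
    simp [h0])
  have h2 : A1 d B g i = {y : Fin d → ℤ | (∀ i, co y i ≠ 0) ∧
      (∀ i, |((y i : ℤ) : ℝ)| ≤ B) ∧ ∀ i, (H i : ℤ) ∣ co y i} := by
    ext y
    constructor
    · rintro ⟨a, b, c⟩
      refine ⟨a, b, fun k => ?_⟩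
      rw [hH]
      by_cases hk : k ∈ ({i} : Finset (Fin (d + 1)))
      · simp only [if_pos hk]
        rw [Finset.mem_singleton] at hk
        subst hk
        exact_mod_cast c
      · simp only [if_neg hk]
        simp
    · rintro ⟨a, b, c⟩
      refine ⟨a, b, ?_⟩
      have := c i
      rw [hH] at this
      simpa using this
  rw [h2]
  rw [hp] at h1
  refine ⟨h1.1, h1.2.trans (le_of_eq ?_)⟩
  push_cast
  rfl

end Pool.Agent.P8H38.JN
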